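import Pool.Agent.Q169.CZ.Full

set_option autoImplicit false

namespace Pool.Agent.Results.MP_16d611_an.FullBound

open Polynomial

/-- The `q`-numerical range `W_q(A)`: the numbers `⟨A x, y⟩` with `‖x‖ = ‖y‖ = 1`, `⟨x, y⟩ = q`.
(Mathlib's `inner ℂ y x` is `∑ i, x i * conj (y i)`.) -/
def qNumRange {n : ℕ} (A : Matrix (Fin n) (Fin n) ℂ) (q : ℂ) : Set ℂ :=
  {w | ∃ x y : EuclideanSpace ℂ (Fin n), ‖x‖ = 1 ∧ ‖y‖ = 1 ∧ inner ℂ y x = q ∧
    inner ℂ y (Matrix.toEuclideanCLM (n := Fin n) (𝕜 := ℂ) A x) = w}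

/-- The scaled `q`-numerical range `Ω_q = W_q(A) / q`. -/
def scaledRange {n : ℕ} (A : Matrix (Fin n) (Fin n) ℂ) (q : ℂ) : Set ℂ :=
  {z | ∃ w ∈ qNumRange A q, z = w / q}

/-- The constant `c(q) = max (1, 2|q| / (1 + √(1 - |q|²)))`. -/
noncomputable def c (q : ℂ) : ℝ := max 1 (2 * ‖q‖ / (1 + Real.sqrt (1 - ‖q‖ ^ 2)))

theorem Om_eq {n : ℕ} (A : Matrix (Fin n) (Fin n) ℂ) (q : ℂ) :
    Q169.CZ.Om (Matrix.toEuclideanCLM (n := Fin n) (𝕜 := ℂ) A) q = scaledRange A q := by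
  ext z
  constructor
  · rintro ⟨x, y, hx, hy, hxy, rfl⟩
    exact ⟨_, ⟨x, y, hx, hy, hxy, rfl⟩, rfl⟩
  · rintro ⟨w, ⟨x, y, hx, hy, hxy, rfl⟩, rfl⟩
    exact ⟨x, y, hx, hy, hxy, rfl⟩

theorem bdd {n : ℕ} (A : Matrix (Fin n) (Fin n) ℂ) (q : ℂ) (p : ℂ[X]) :
    BddAbove ((fun z => ‖p.eval z‖) '' scaledRange A q) := by
  set T := Matrix.toEuclideanCLM (n := Fin n) (𝕜 := ℂ) A with hT
  have h1 : (fun z : ℂ => ‖p.eval z‖) '' scaledRange A q ⊆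
      (fun z : ℂ => ‖p.eval z‖) '' Metric.closedBall (0 : ℂ) (‖T‖ / ‖q‖) := by
    apply Set.image_mono
    rintro z ⟨w, ⟨x, y, hx, hy, -, rfl⟩, rfl⟩
    rw [mem_closedBall_zero_iff, norm_div]
    gcongr
    calc ‖inner ℂ y (T x)‖ ≤ ‖y‖ * ‖T x‖ := norm_inner_le_norm _ _
      _ ≤ 1 * (‖T‖ * 1) := by
          rw [hy]; gcongr
          have := T.le_opNorm x
          rwa [hx] at this
      _ = ‖T‖ := by ring
  refine BddAbove.mono h1 ?_
  apply IsCompact.bddAbove_image (isCompact_closedBall _ _)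
  apply Continuous.continuousOn
  fun_prop

/-- For `|q| = 1` the numerical range lies in `Ω_q`. -/
theorem unit_mem {n : ℕ} (A : Matrix (Fin n) (Fin n) ℂ) {q : ℂ} (hq : ‖q‖ = 1)
    {x : EuclideanSpace ℂ (Fin n)} (hx : ‖x‖ = 1) :
    inner ℂ x (Matrix.toEuclideanCLM (n := Fin n) (𝕜 := ℂ) A x) ∈ scaledRange A q := by
  have hq0 : q ≠ 0 := by intro h; rw [h] at hq; simp at hq
  refine ⟨_, ⟨x, (starRingEnd ℂ) q • x, hx, ?_, ?_, rfl⟩, ?_⟩
  · rw [norm_smul, RCLike.norm_conj, hq, hx, mul_one]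
  · rw [inner_smul_left, Complex.conj_conj, Q169.CZ.inner_self_real, hx]; simp
  · rw [inner_smul_left, Complex.conj_conj]
    field_simp

/-- **Q1 holds**: `‖p(A)‖ ≤ c(q) sup_{Ω_q} |p|`, for all `n ≥ 2` and `0 < |q| ≤ 1`, and also for
`n = 1` when `|q| = 1` (for `n = 1` and `|q| < 1` the set `W_q(A)` is empty). -/
theorem result (n : ℕ) (hn : 1 ≤ n) (A : Matrix (Fin n) (Fin n) ℂ) (q : ℂ) (hq0 : 0 < ‖q‖)
    (hq1 : ‖q‖ ≤ 1) (hnq : 2 ≤ n ∨ ‖q‖ = 1) (p : Polynomial ℂ) :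
    (scaledRange A q).Nonempty ∧ BddAbove ((fun z => ‖p.eval z‖) '' scaledRange A q) ∧
    ‖Matrix.toEuclideanCLM (n := Fin n) (𝕜 := ℂ) (Polynomial.aeval A p)‖ ≤
      c q * sSup ((fun z => ‖p.eval z‖) '' scaledRange A q) := by
  set φ := Matrix.toEuclideanCLM (n := Fin n) (𝕜 := ℂ) with hφ
  have hmat : φ (Polynomial.aeval A p) = Polynomial.aeval (φ A) p :=
    (Polynomial.aeval_algHom_apply (φ.toAlgEquiv.toAlgHom) A p).symm
  have hq0' : q ≠ 0 := norm_pos_iff.mp hq0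
  have : NeZero n := ⟨by omega⟩
  have hnt : Nontrivial (EuclideanSpace ℂ (Fin n)) := inferInstance
  obtain ⟨x, hx⟩ := exists_norm_eq (EuclideanSpace ℂ (Fin n)) zero_le_one
  refine ⟨?_, bdd A q p, ?_⟩
  · rcases hnq with h2 | h1
    · obtain ⟨z, hz, hzx⟩ := Q169.CZ.exists_orth (by simpa using h2) x
      have := Q169.CZ.mem_Om (φ A) hq0' hq1 hx hz hzx 1 (by simp)
      rw [hφ, Om_eq] at this
      exact ⟨_, this⟩
    · exact ⟨_, unit_mem A h1 hx⟩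
  · rw [hmat]
    have hM : ∀ z ∈ scaledRange A q,
        ‖p.eval z‖ ≤ sSup ((fun z => ‖p.eval z‖) '' scaledRange A q) :=
      fun z hz => le_csSup (bdd A q p) ⟨z, hz, rfl⟩
    rcases hnq with h2 | h1
    · apply Q169.CZ.full_main (by simpa using h2) (φ A) hq0' hq1 p
      rw [hφ, Om_eq]
      exact hM
    · have hc : c q = 2 := by
        rw [c, h1]; norm_num
      rw [hc]
      apply W753.CZ.crouzeix_bound (φ A) p
      rintro w ⟨y, hy, rfl⟩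
      exact hM _ (unit_mem A h1 hy)

end Pool.Agent.Results.MP_16d611_an.FullBound
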